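import Pool.Agent.H43.Fd4

set_option autoImplicit false

namespace Pool.Agent.Results.MP_76c567_pr.NotFinitary

open MeasureTheory ProbabilityTheory

theorem result : ∃ (V : Type) (G : SimpleGraph V), G.IsTree ∧ (∀ v, (G.neighborSet v).ncard = 4) ∧
    ∃ μ : Measure (V → ℕ → ℝ), IsProbabilityMeasure μ ∧
      (∀ φ : G ≃g G, μ.map (fun x v => x (φ v)) = μ) ∧
      (∀ A B : Set V, (∀ a ∈ A, ∀ b ∈ B, 1 < G.dist a b) →
        Indep (MeasurableSpace.comap (fun (x : V → ℕ → ℝ) (a : A) => x a) inferInstance)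
          (MeasurableSpace.comap (fun (x : V → ℕ → ℝ) (b : B) => x b) inferInstance) μ) ∧
      ∀ (L : Type) [MeasurableSpace L] (ν : Measure L) [IsProbabilityMeasure ν]
        (F : (V → L) → V → ℕ → ℝ), Measurable F →
        (Measure.infinitePi fun _ : V => ν).map F = μ →
        (∀ φ : G ≃g G, ∀ᵐ y ∂(Measure.infinitePi fun _ : V => ν),
          F (fun v => y (φ v)) = fun v => F y (φ v)) →
        ¬∀ᵐ y ∂(Measure.infinitePi fun _ : V => ν), ∀ v, ∃ r : ℕ, ∀ y' : V → L,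
          (∀ u, G.dist v u ≤ r → y' u = y u) → F y' v = F y v :=
  ⟨_, _, Pool.Agent.H43.Fd.cay_rt.isTree, Pool.Agent.H43.Fd.cay_deg, Pool.Agent.H43.Fd.exists_mu⟩

end Pool.Agent.Results.MP_76c567_pr.NotFinitary
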